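import Mathlib
import Pool.Agent.H807R2.Dav1

set_option autoImplicit false

/-!
Project GB (helper66), piece GB-13 (EST), part A: discrete Fourier analysis and the Cauchy-Schwarz step.
-/

namespace Pool.Agent.E8helper81.GB

open Finset
open Pool.Agent.H807R2.Dav (ee norm_ee ee_add ee_int ee_zero ee_pow ee_eq)

lemma ee_eq_one {x : ℝ} (h : ee x = 1) : ∃ k : ℤ, x = k := by
  unfold ee at h
  rw [Complex.exp_eq_one_iff] at h
  obtain ⟨k, hk⟩ := h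
  refine ⟨k, ?_⟩
  have h2 : (2 * (Real.pi : ℂ) * Complex.I) ≠ 0 := Complex.two_pi_I_ne_zero
  have h3 : (x : ℂ) = k := by
    apply mul_left_cancel₀ h2
    rw [hk]; ring
  exact_mod_cast h3

lemma conj_ee (x : ℝ) : (starRingEnd ℂ) (ee x) = ee (-x) := by
  rw [ee_eq, ← Complex.exp_conj, map_mul, Complex.conj_ofReal, Complex.conj_I, ee_eq]
  congr 1
  push_cast
  ring

/-- orthogonality -/
lemma orth (R : ℕ) (hR : 0 < R) (m : ℤ) (hm : |m| < R) :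
    ∑ j ∈ range R, ee ((j : ℝ) * ((m : ℝ) / R)) = if m = 0 then (R : ℂ) else 0 := by
  have hR' : (0 : ℝ) < R := by exact_mod_cast hR
  split_ifs with h
  · subst h; simp [ee_zero]
  · have h1 : ee ((m : ℝ) / R) ≠ 1 := by
      intro h1
      obtain ⟨k, hk⟩ := ee_eq_one h1
      rw [div_eq_iff hR'.ne'] at hk
      have h2 : m = k * R := by exact_mod_cast hk
      rcases eq_or_ne k 0 with hk0 | hk0
      · subst hk0; simp at h2; exact h h2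
      · have : (R : ℤ) ≤ |m| := by
          rw [h2, abs_mul]
          have := Int.one_le_abs hk0
          rw [Nat.abs_cast]
          nlinarith
        omega
    have h2 : ∀ j ∈ range R, ee ((j : ℝ) * ((m : ℝ) / R)) = ee ((m : ℝ) / R) ^ j := fun j _ => ee_pow _ _
    rw [sum_congr rfl h2, geom_sum_eq h1]
    have h3 : ee ((m : ℝ) / R) ^ R = 1 := by
      rw [← ee_pow, mul_div_cancel₀ _ hR'.ne', ee_int]
    rw [h3, sub_self, zero_div]

/-- Parseval -/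
lemma pars {ι : Type*} (R : ℕ) (hR : 0 < R) (S : Finset ι) (k : ι → ℤ) (c : ι → ℂ)
    (hk : ∀ s ∈ S, ∀ t ∈ S, k s = k t → s = t) (hb : ∀ s ∈ S, ∀ t ∈ S, |k s - k t| < R) :
    ∑ j ∈ range R, ‖∑ s ∈ S, c s * ee ((j : ℝ) * ((k s : ℝ) / R))‖ ^ 2 = R * ∑ s ∈ S, ‖c s‖ ^ 2 := by
  classical
  have h1 : ((∑ j ∈ range R, ‖∑ s ∈ S, c s * ee ((j : ℝ) * ((k s : ℝ) / R))‖ ^ 2 : ℝ) : ℂ) =
      ((R * ∑ s ∈ S, ‖c s‖ ^ 2 : ℝ) : ℂ) := by
    push_cast
    have h2 : ∀ j ∈ range R, ((‖∑ s ∈ S, c s * ee ((j : ℝ) * ((k s : ℝ) / R))‖ : ℂ)) ^ 2 =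
        ∑ s ∈ S, ∑ t ∈ S, (c s * (starRingEnd ℂ) (c t)) * ee ((j : ℝ) * (((k s - k t : ℤ) : ℝ) / R)) := by
      intro j _
      rw [← Complex.mul_conj', map_sum, sum_mul_sum]
      refine sum_congr rfl fun s _ => sum_congr rfl fun t _ => ?_
      rw [map_mul, conj_ee]
      have : ee ((j : ℝ) * (((k s - k t : ℤ) : ℝ) / R)) = ee (j * ((k s : ℝ) / R)) * ee (-(j * ((k t : ℝ) / R))) := by
        rw [← ee_add]; congr 1; push_cast; ring
      rw [this]; ring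
    rw [sum_congr rfl h2, sum_comm, mul_sum]
    refine sum_congr rfl fun s hs => ?_
    rw [sum_comm]
    have h3 : ∀ t ∈ S, ∑ j ∈ range R, (c s * (starRingEnd ℂ) (c t)) * ee ((j : ℝ) * (((k s - k t : ℤ) : ℝ) / R)) =
        if s = t then (R : ℂ) * (‖c s‖ : ℂ) ^ 2 else 0 := by
      intro t ht
      rw [← mul_sum, orth R hR _ (hb s hs t ht)]
      by_cases hst : s = t
      · subst hst
        simp only [sub_self, if_true]
        rw [Complex.mul_conj', mul_comm]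
      · have : ¬ (k s - k t = 0) := fun h => hst (hk s hs t ht (by omega))
        rw [if_neg this, if_neg hst, mul_zero]
    rw [sum_congr rfl h3, sum_ite_eq, if_pos hs]
  exact_mod_cast h1

/-- the trilinear form -/
noncomputable def TF (N : ℕ) (g p q : ℤ → ℂ) : ℂ :=
  ∑ a ∈ Icc (1 : ℤ) N, ∑ s ∈ Icc (1 : ℤ) N, ∑ t ∈ Icc (1 : ℤ) N, if s + t = 2 * a then g a * p s * q t else 0

lemma TF_symm (N : ℕ) (g p q : ℤ → ℂ) : TF N g p q = TF N g q p := by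
  unfold TF
  refine sum_congr rfl fun a _ => ?_
  rw [sum_comm]
  refine sum_congr rfl fun s _ => sum_congr rfl fun t _ => ?_
  rw [add_comm t s]
  split_ifs <;> ring

lemma TF_four (N R : ℕ) (hR : 4 * N < R) (g p q : ℤ → ℂ) :
    (R : ℂ) * TF N g p q = ∑ j ∈ range R, (∑ a ∈ Icc (1 : ℤ) N, g a * ee ((j : ℝ) * (((-2 * a : ℤ) : ℝ) / R))) *
      (∑ s ∈ Icc (1 : ℤ) N, p s * ee ((j : ℝ) * ((s : ℝ) / R))) * (∑ t ∈ Icc (1 : ℤ) N, q t * ee ((j : ℝ) * ((t : ℝ) / R))) := by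
  have hR0 : 0 < R := by omega
  have h1 : ∀ j ∈ range R, (∑ a ∈ Icc (1 : ℤ) N, g a * ee ((j : ℝ) * (((-2 * a : ℤ) : ℝ) / R))) *
      (∑ s ∈ Icc (1 : ℤ) N, p s * ee ((j : ℝ) * ((s : ℝ) / R))) * (∑ t ∈ Icc (1 : ℤ) N, q t * ee ((j : ℝ) * ((t : ℝ) / R))) =
      ∑ a ∈ Icc (1 : ℤ) N, ∑ s ∈ Icc (1 : ℤ) N, ∑ t ∈ Icc (1 : ℤ) N,
        (g a * p s * q t) * ee ((j : ℝ) * (((s + t - 2 * a : ℤ) : ℝ) / R)) := by
    intro j _
    rw [sum_mul_sum, sum_mul]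
    refine sum_congr rfl fun a _ => ?_
    rw [sum_mul]
    refine sum_congr rfl fun s _ => ?_
    rw [mul_sum]
    refine sum_congr rfl fun t _ => ?_
    have : ee ((j : ℝ) * (((s + t - 2 * a : ℤ) : ℝ) / R)) =
        ee ((j : ℝ) * (((-2 * a : ℤ) : ℝ) / R)) * ee ((j : ℝ) * ((s : ℝ) / R)) * ee ((j : ℝ) * ((t : ℝ) / R)) := by
      rw [← ee_add, ← ee_add]; congr 1; push_cast; ring
    rw [this]; ring
  rw [sum_congr rfl h1, sum_comm, TF, mul_sum]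
  refine sum_congr rfl fun a ha => ?_
  conv_rhs => rw [sum_comm]
  rw [mul_sum]
  refine sum_congr rfl fun s hs => ?_
  conv_rhs => rw [sum_comm]
  rw [mul_sum]
  refine sum_congr rfl fun t ht => ?_
  rw [mem_Icc] at ha hs ht
  rw [← mul_sum, orth R hR0 _ (by rw [abs_lt]; omega)]
  by_cases h : s + t = 2 * a
  · rw [if_pos h, if_pos (by omega)]; ring
  · rw [if_neg h, if_neg (by omega)]; ring

lemma TF_le (N R : ℕ) (hR : 4 * N < R) (g p q : ℤ → ℂ) (M Q : ℝ) (hQ : 0 < Q)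
    (hM : ∀ j ∈ range R, ‖∑ s ∈ Icc (1 : ℤ) N, p s * ee ((j : ℝ) * ((s : ℝ) / R))‖ ≤ M)
    (hg : ∀ a ∈ Icc (1 : ℤ) N, ‖g a‖ ≤ 1) (hq : ∀ t ∈ Icc (1 : ℤ) N, ‖q t‖ ≤ Q) :
    ‖TF N g p q‖ ≤ M * N * Q := by
  have hR0 : 0 < R := by omega
  have hR' : (0 : ℝ) < R := by exact_mod_cast hR0
  have hM0 : 0 ≤ M := (norm_nonneg _).trans (hM 0 (mem_range.2 hR0))
  have h1 := TF_four N R hR g p q
  set G : ℕ → ℂ := fun j => ∑ a ∈ Icc (1 : ℤ) N, g a * ee ((j : ℝ) * (((-2 * a : ℤ) : ℝ) / R)) with hG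
  set P : ℕ → ℂ := fun j => ∑ s ∈ Icc (1 : ℤ) N, p s * ee ((j : ℝ) * ((s : ℝ) / R)) with hP
  set H : ℕ → ℂ := fun j => ∑ t ∈ Icc (1 : ℤ) N, q t * ee ((j : ℝ) * ((t : ℝ) / R)) with hH
  have h2 : ∑ j ∈ range R, ‖G j‖ ^ 2 = R * ∑ a ∈ Icc (1 : ℤ) N, ‖g a‖ ^ 2 := by
    refine pars R hR0 (Icc (1 : ℤ) N) (fun a => -2 * a) g (fun s _ t _ h => by simp at h; omega) ?_
    intro s hs t ht
    rw [mem_Icc] at hs ht
    rw [abs_lt]; constructor <;> omega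
  have h3 : ∑ j ∈ range R, ‖H j‖ ^ 2 = R * ∑ a ∈ Icc (1 : ℤ) N, ‖q a‖ ^ 2 := by
    refine pars R hR0 (Icc (1 : ℤ) N) (fun a => a) q (fun s _ t _ h => h) ?_
    intro s hs t ht
    rw [mem_Icc] at hs ht
    rw [abs_lt]; constructor <;> omega
  have hcard : ((Icc (1 : ℤ) N).card : ℝ) = N := by
    rw [Int.card_Icc]; simp
  have h4 : ∑ a ∈ Icc (1 : ℤ) N, ‖g a‖ ^ 2 ≤ N := by
    calc ∑ a ∈ Icc (1 : ℤ) N, ‖g a‖ ^ 2 ≤ ∑ a ∈ Icc (1 : ℤ) N, (1 : ℝ) :=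
          sum_le_sum fun a ha => pow_le_one₀ (norm_nonneg _) (hg a ha)
      _ = N := by rw [sum_const, nsmul_eq_mul, hcard, mul_one]
  have h5 : ∑ a ∈ Icc (1 : ℤ) N, ‖q a‖ ^ 2 ≤ N * Q ^ 2 := by
    calc ∑ a ∈ Icc (1 : ℤ) N, ‖q a‖ ^ 2 ≤ ∑ a ∈ Icc (1 : ℤ) N, Q ^ 2 :=
          sum_le_sum fun a ha => pow_le_pow_left₀ (norm_nonneg _) (hq a ha) 2
      _ = N * Q ^ 2 := by rw [sum_const, nsmul_eq_mul, hcard]
  have h6 : (R : ℝ) * ‖TF N g p q‖ ≤ ∑ j ∈ range R, M * ((Q * ‖G j‖ ^ 2 + Q⁻¹ * ‖H j‖ ^ 2) / 2) := by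
    calc (R : ℝ) * ‖TF N g p q‖ = ‖(R : ℂ) * TF N g p q‖ := by rw [norm_mul]; simp
      _ = ‖∑ j ∈ range R, G j * P j * H j‖ := by rw [h1]
      _ ≤ ∑ j ∈ range R, ‖G j * P j * H j‖ := norm_sum_le _ _
      _ ≤ _ := by
        refine sum_le_sum fun j hj => ?_
        rw [norm_mul, norm_mul]
        have e1 := hM j hj
        have e2 : ‖G j‖ * ‖H j‖ ≤ (Q * ‖G j‖ ^ 2 + Q⁻¹ * ‖H j‖ ^ 2) / 2 := by
          have e3 : 0 ≤ Q⁻¹ * (Q * ‖G j‖ - ‖H j‖) ^ 2 := by positivity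
          have e4 : Q⁻¹ * (Q * ‖G j‖ - ‖H j‖) ^ 2 = Q * ‖G j‖ ^ 2 - 2 * (‖G j‖ * ‖H j‖) + Q⁻¹ * ‖H j‖ ^ 2 := by
            field_simp
            ring
          linarith
        calc ‖G j‖ * ‖P j‖ * ‖H j‖ = ‖P j‖ * (‖G j‖ * ‖H j‖) := by ring
          _ ≤ M * ((Q * ‖G j‖ ^ 2 + Q⁻¹ * ‖H j‖ ^ 2) / 2) :=
            mul_le_mul e1 e2 (by positivity) hM0
  have h7 : ∑ j ∈ range R, M * ((Q * ‖G j‖ ^ 2 + Q⁻¹ * ‖H j‖ ^ 2) / 2) =
      M * ((Q * (R * ∑ a ∈ Icc (1 : ℤ) N, ‖g a‖ ^ 2) + Q⁻¹ * (R * ∑ a ∈ Icc (1 : ℤ) N, ‖q a‖ ^ 2)) / 2) := by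
    rw [← mul_sum, ← sum_div, sum_add_distrib, ← mul_sum, ← mul_sum, h2, h3]
  have h8 : M * ((Q * (R * ∑ a ∈ Icc (1 : ℤ) N, ‖g a‖ ^ 2) + Q⁻¹ * (R * ∑ a ∈ Icc (1 : ℤ) N, ‖q a‖ ^ 2)) / 2) ≤
      M * ((Q * (R * N) + Q⁻¹ * (R * (N * Q ^ 2))) / 2) := by
    gcongr
  have h9 : M * ((Q * (R * N) + Q⁻¹ * (R * (N * Q ^ 2))) / 2) = R * (M * N * Q) := by
    field_simp
    ring
  rw [h7] at h6
  have h10 := h6.trans (h8.trans_eq h9)
  exact le_of_mul_le_mul_left h10 hR'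

/-- the Cauchy-Schwarz step -/
lemma gow (n N : ℕ) (hn : n ≤ N) (A B : Finset ℤ) (hA : A ⊆ Icc (1 : ℤ) n) (hB : B ⊆ Icc (1 : ℤ) n)
    (P Q : ℤ → ℝ) (hP : ∀ x : ℤ, ¬ (1 ≤ x ∧ x ≤ N) → P x = 0) (hQ : ∀ x : ℤ, ¬ (1 ≤ x ∧ x ≤ N) → Q x = 0) :
    (∑ a ∈ A, ∑ b ∈ B, P (a + b) * Q (a - b)) ^ 2 ≤ n * ∑ h ∈ Icc (-(N : ℤ)) N,
      ‖TF N (fun a => if a ∈ A ∧ a + h ∈ A then 1 else 0) (fun x => ((P x * P (x + h) : ℝ) : ℂ))
        (fun x => ((Q x * Q (x + h) : ℝ) : ℂ))‖ := by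
  classical
  set F : ℤ → ℝ := fun b => ∑ a ∈ A, P (a + b) * Q (a - b) with hF
  have h1 : (∑ a ∈ A, ∑ b ∈ B, P (a + b) * Q (a - b)) ^ 2 ≤ n * ∑ b ∈ Icc (-(N : ℤ)) N, F b ^ 2 := by
    rw [sum_comm]
    calc (∑ b ∈ B, F b) ^ 2 ≤ B.card * ∑ b ∈ B, F b ^ 2 := sq_sum_le_card_mul_sum_sq
      _ ≤ n * ∑ b ∈ Icc (-(N : ℤ)) N, F b ^ 2 := by
        have e1 : (B.card : ℝ) ≤ n := by
          have := card_le_card hB
          rw [Int.card_Icc] at this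
          have e2 : B.card ≤ n := by omega
          exact_mod_cast e2
        have e3 : ∑ b ∈ B, F b ^ 2 ≤ ∑ b ∈ Icc (-(N : ℤ)) N, F b ^ 2 := by
          refine sum_le_sum_of_subset_of_nonneg ?_ (fun _ _ _ => sq_nonneg _)
          intro b hb
          have := hB hb
          rw [mem_Icc] at this ⊢
          omega
        have e4 : 0 ≤ ∑ b ∈ B, F b ^ 2 := sum_nonneg fun _ _ => sq_nonneg _
        exact mul_le_mul e1 e3 e4 (Nat.cast_nonneg _)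
  refine h1.trans (mul_le_mul_of_nonneg_left ?_ (Nat.cast_nonneg _))
  have h2 : ((∑ b ∈ Icc (-(N : ℤ)) N, F b ^ 2 : ℝ) : ℂ) = ∑ h ∈ Icc (-(N : ℤ)) N,
      TF N (fun a => if a ∈ A ∧ a + h ∈ A then 1 else 0) (fun x => ((P x * P (x + h) : ℝ) : ℂ))
        (fun x => ((Q x * Q (x + h) : ℝ) : ℂ)) := by
    -- expand the square
    have e1 : ∀ b ∈ Icc (-(N : ℤ)) N, F b ^ 2 = ∑ h ∈ Icc (-(N : ℤ)) N, ∑ a ∈ Icc (1 : ℤ) N,
        if a ∈ A ∧ a + h ∈ A then (P (a + b) * P (a + b + h)) * (Q (a - b) * Q (a - b + h)) else 0 := by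
      intro b _
      rw [sq, hF]
      simp only
      rw [sum_mul_sum, sum_comm (s := Icc (-(N : ℤ)) N)]
      have e2 : ∑ a ∈ Icc (1 : ℤ) N, ∑ h ∈ Icc (-(N : ℤ)) N,
          (if a ∈ A ∧ a + h ∈ A then (P (a + b) * P (a + b + h)) * (Q (a - b) * Q (a - b + h)) else 0) =
          ∑ a ∈ A, ∑ h ∈ Icc (-(N : ℤ)) N,
          (if a ∈ A ∧ a + h ∈ A then (P (a + b) * P (a + b + h)) * (Q (a - b) * Q (a - b + h)) else 0) := by
        symm
        refine sum_subset ?_ ?_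
        · intro a ha
          have := hA ha
          rw [mem_Icc] at this ⊢
          omega
        · intro a _ ha
          refine sum_eq_zero fun h _ => ?_
          rw [if_neg (fun h => ha h.1)]
      rw [e2]
      refine sum_congr rfl fun a ha => ?_
      have ha' := hA ha
      rw [mem_Icc] at ha'
      rw [← sum_filter]
      refine sum_nbij' (fun a' => a' - a) (fun h => a + h) ?_ ?_ ?_ ?_ ?_
      · intro a' ha'
        have h3 := hA ha'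
        rw [mem_Icc] at h3
        rw [mem_filter, mem_Icc]
        refine ⟨by omega, ha, ?_⟩
        rw [show a + (a' - a) = a' by ring]
        exact ha'
      · intro h hh
        rw [mem_filter] at hh
        exact hh.2.2
      · intro a' _; ring
      · intro h _; ring
      · intro a' _
        rw [show a + b + (a' - a) = a' + b by ring, show a - b + (a' - a) = a' - b by ring]
        ring
    rw [sum_congr rfl e1, sum_comm]
    push_cast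
    refine sum_congr rfl fun h _ => ?_
    rw [sum_comm, TF]
    refine sum_congr rfl fun a ha => ?_
    rw [mem_Icc] at ha
    by_cases hc : a ∈ A ∧ a + h ∈ A
    · simp only [hc, and_self, if_true]
      have e3 : ∀ s ∈ Icc (1 : ℤ) N, (∑ t ∈ Icc (1 : ℤ) N, if s + t = 2 * a then (1 : ℂ) * (P s * P (s + h)) * (Q t * Q (t + h)) else 0) =
          (P s * P (s + h) : ℂ) * (Q (2 * a - s) * Q (2 * a - s + h)) := by
        intro s _
        have e4 : ∀ t ∈ Icc (1 : ℤ) N, (if s + t = 2 * a then (1 : ℂ) * (P s * P (s + h)) * (Q t * Q (t + h)) else 0) =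
            if t = 2 * a - s then (1 : ℂ) * (P s * P (s + h)) * (Q t * Q (t + h)) else 0 := by
          intro t _
          by_cases h5 : s + t = 2 * a
          · rw [if_pos h5, if_pos (by omega)]
          · rw [if_neg h5, if_neg (by omega)]
        rw [sum_congr rfl e4, sum_ite_eq']
        by_cases h6 : 2 * a - s ∈ Icc (1 : ℤ) N
        · rw [if_pos h6, one_mul]
        · rw [if_neg h6]
          rw [mem_Icc] at h6
          rw [hQ _ h6]; simp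
      push_cast
      rw [sum_congr rfl e3]
      have e5 : ∑ s ∈ Icc (1 : ℤ) N, (P s * P (s + h) : ℂ) * (Q (2 * a - s) * Q (2 * a - s + h)) =
          ∑ s ∈ Icc (a - N) (a + N), (P s * P (s + h) : ℂ) * (Q (2 * a - s) * Q (2 * a - s + h)) := by
        refine sum_subset ?_ ?_
        · intro s hs
          rw [mem_Icc] at hs ⊢
          omega
        · intro s _ hs
          rw [mem_Icc] at hs
          rw [hP _ hs]; simp
      rw [e5]
      refine sum_nbij' (fun b => a + b) (fun s => s - a) ?_ ?_ ?_ ?_ ?_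
      · intro b hb; simp only [mem_Icc] at hb ⊢; omega
      · intro b hb; simp only [mem_Icc] at hb ⊢; omega
      · intro b _; ring
      · intro b _; ring
      · intro b _
        rw [show 2 * a - (a + b) = a - b by ring]
    · simp [hc]
  have h3 : ∑ b ∈ Icc (-(N : ℤ)) N, F b ^ 2 ≤ ‖((∑ b ∈ Icc (-(N : ℤ)) N, F b ^ 2 : ℝ) : ℂ)‖ := by
    rw [Complex.norm_real]
    exact Real.le_norm_self _
  rw [h2] at h3
  exact h3.trans (norm_sum_le _ _)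

end Pool.Agent.E8helper81.GB
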