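import Pool.Agent.E8helper66.GB.Stm
import Pool.Agent.E8helper81.GB.EstA

set_option autoImplicit false

/-!
Project GB (helper66), piece GB-13 (EST).
-/

namespace Pool.Agent.E8helper81.GB

open Finset
open Pool.Agent.H807R2.Dav (ee norm_ee ee_add ee_int ee_zero ee_pow ee_eq)
open Pool.Agent.H373R2.T7 (lamz pz Vz Vz_pos lamz_nonneg mem_pz Vz_inv_small)
open Pool.Agent.E8helper66.GB

/-- extension by zero -/
noncomputable def xt (N : ℕ) (f : ℕ → ℝ) (x : ℤ) : ℝ := if 1 ≤ x ∧ x ≤ N then f x.toNat else 0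

lemma xt_out (N : ℕ) (f : ℕ → ℝ) (x : ℤ) (h : ¬ (1 ≤ x ∧ x ≤ N)) : xt N f x = 0 := if_neg h

lemma xt_in (N : ℕ) (f : ℕ → ℝ) (x : ℕ) (h1 : 1 ≤ x) (h2 : x ≤ N) : xt N f (x : ℤ) = f x := by
  unfold xt
  rw [if_pos (by omega), Int.toNat_natCast]

lemma xt_abs (N : ℕ) (f : ℕ → ℝ) (G : ℝ) (hG : 0 ≤ G) (h : ∀ x ∈ Icc 1 N, |f x| ≤ G) (x : ℤ) : |xt N f x| ≤ G := by
  unfold xt
  split_ifs with h1
  · refine h _ ?_
    rw [mem_Icc]; omega
  · simpa using hG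

lemma sum_cast (N : ℕ) (F : ℤ → ℂ) : ∑ x ∈ Icc 1 N, F (x : ℤ) = ∑ s ∈ Icc (1 : ℤ) N, F s := by
  refine sum_nbij' (fun x => (x : ℤ)) (fun s => s.toNat) ?_ ?_ ?_ ?_ ?_
  · intro x hx; simp only [mem_Icc] at hx ⊢; omega
  · intro x hx; simp only [mem_Icc] at hx ⊢; omega
  · intro x hx; simp
  · intro x hx; simp only [mem_Icc] at hx; omega
  · intro x hx; rfl

lemma ff_form (N : ℕ) (f : ℕ → ℝ) (κ : ℤ → ℂ) (θ : ℤ → ℝ) :
    ∑ x ∈ Icc 1 N, (f x : ℂ) * FF N (fun y => (f y : ℂ)) κ θ x =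
    ∑ h ∈ Icc (-(N : ℤ)) N, κ h * ∑ s ∈ Icc (1 : ℤ) N, ((xt N f s * xt N f (s + h) : ℝ) : ℂ) * ee (θ h * s) := by
  have h1 : ∑ x ∈ Icc 1 N, (f x : ℂ) * FF N (fun y => (f y : ℂ)) κ θ x =
      ∑ x ∈ Icc 1 N, (fun s : ℤ => ∑ t ∈ Icc (1 : ℤ) N, (xt N f s : ℂ) * (xt N f t * (κ (t - s) * ee (θ (t - s) * s)))) (x : ℤ) := by
    refine sum_congr rfl fun x hx => ?_
    rw [mem_Icc] at hx
    simp only
    rw [← sum_cast N (fun t : ℤ => (xt N f (x : ℤ) : ℂ) * (xt N f t * (κ (t - (x : ℤ)) * ee (θ (t - (x : ℤ)) * ((x : ℤ) : ℝ)))))]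
    rw [FF, mul_sum]
    refine sum_congr rfl fun y hy => ?_
    rw [mem_Icc] at hy
    rw [xt_in N f x hx.1 hx.2, xt_in N f y hy.1 hy.2]
    push_cast
    ring
  rw [h1, sum_cast N (fun s : ℤ => ∑ t ∈ Icc (1 : ℤ) N, (xt N f s : ℂ) * (xt N f t * (κ (t - s) * ee (θ (t - s) * s))))]
  have h2 : ∀ h ∈ Icc (-(N : ℤ)) N, κ h * ∑ s ∈ Icc (1 : ℤ) N, ((xt N f s * xt N f (s + h) : ℝ) : ℂ) * ee (θ h * s) =
      ∑ s ∈ Icc (1 : ℤ) N, κ h * (((xt N f s * xt N f (s + h) : ℝ) : ℂ) * ee (θ h * s)) := fun h _ => mul_sum _ _ _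
  rw [sum_congr rfl h2]
  conv_rhs => rw [sum_comm]
  refine sum_congr rfl fun s hs => ?_
  rw [mem_Icc] at hs
  have h3 : ∑ h ∈ Icc (-(N : ℤ)) N, κ h * (((xt N f s * xt N f (s + h) : ℝ) : ℂ) * ee (θ h * s)) =
      ∑ h ∈ Icc (1 - s) (N - s), κ h * (((xt N f s * xt N f (s + h) : ℝ) : ℂ) * ee (θ h * s)) := by
    symm
    refine sum_subset ?_ ?_
    · intro h hh
      rw [mem_Icc] at hh ⊢
      omega
    · intro h _ hh
      rw [mem_Icc] at hh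
      rw [xt_out N f (s + h) (by omega)]
      simp
  rw [h3]
  refine sum_nbij' (fun t => t - s) (fun h => s + h) ?_ ?_ ?_ ?_ ?_
  · intro x hx; simp only [mem_Icc] at hx ⊢; omega
  · intro x hx; simp only [mem_Icc] at hx ⊢; omega
  · intro x hx; ring
  · intro x hx; ring
  · intro t ht
    rw [show s + (t - s) = t by ring]
    push_cast
    ring

/-- the choice of the frequencies and phases -/
lemma max_h (N R : ℕ) (hR : 0 < R) (f : ℕ → ℝ) (V : ℝ)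
    (hV : ∀ (κ : ℤ → ℂ) (θ : ℤ → ℝ), (∀ h, ‖κ h‖ ≤ 1) →
      ‖∑ x ∈ Icc 1 N, (f x : ℂ) * FF N (fun y => (f y : ℂ)) κ θ x‖ ≤ V) :
    ∃ M : ℤ → ℝ, (∀ h, ∀ j ∈ range R, ‖∑ s ∈ Icc (1 : ℤ) N, ((xt N f s * xt N f (s + h) : ℝ) : ℂ) *
      ee ((j : ℝ) * ((s : ℝ) / R))‖ ≤ M h) ∧ ∑ h ∈ Icc (-(N : ℤ)) N, M h ≤ V := by
  have h1 : ∀ h : ℤ, ∃ j ∈ range R, ∀ j' ∈ range R,
      ‖∑ s ∈ Icc (1 : ℤ) N, ((xt N f s * xt N f (s + h) : ℝ) : ℂ) * ee ((j' : ℝ) * ((s : ℝ) / R))‖ ≤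
      ‖∑ s ∈ Icc (1 : ℤ) N, ((xt N f s * xt N f (s + h) : ℝ) : ℂ) * ee ((j : ℝ) * ((s : ℝ) / R))‖ := fun h =>
    exists_max_image (range R) (fun j : ℕ => ‖∑ s ∈ Icc (1 : ℤ) N, ((xt N f s * xt N f (s + h) : ℝ) : ℂ) *
      ee ((j : ℝ) * ((s : ℝ) / R))‖) ⟨0, mem_range.2 hR⟩
  choose J hJ hmax using h1
  set Z : ℤ → ℂ := fun h => ∑ s ∈ Icc (1 : ℤ) N, ((xt N f s * xt N f (s + h) : ℝ) : ℂ) * ee ((J h : ℝ) * ((s : ℝ) / R)) with hZ
  refine ⟨fun h => ‖Z h‖, fun h j hj => hmax h j hj, ?_⟩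
  have h2 := hV (fun h => (starRingEnd ℂ) (Z h) / (‖Z h‖ : ℂ)) (fun h => (J h : ℝ) / R) ?_
  · rw [ff_form] at h2
    have h3 : ∀ h ∈ Icc (-(N : ℤ)) N, (starRingEnd ℂ) (Z h) / (‖Z h‖ : ℂ) *
        ∑ s ∈ Icc (1 : ℤ) N, ((xt N f s * xt N f (s + h) : ℝ) : ℂ) * ee ((J h : ℝ) / R * s) = ((‖Z h‖ : ℝ) : ℂ) := by
      intro h _
      have e1 : ∑ s ∈ Icc (1 : ℤ) N, ((xt N f s * xt N f (s + h) : ℝ) : ℂ) * ee ((J h : ℝ) / R * s) = Z h := by
        rw [hZ]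
        refine sum_congr rfl fun s _ => ?_
        congr 2
        ring
      rw [e1]
      by_cases hz : Z h = 0
      · rw [hz]; simp
      · have hz' : (‖Z h‖ : ℂ) ≠ 0 := by
          simpa using hz
        rw [div_mul_eq_mul_div, div_eq_iff hz', mul_comm, Complex.mul_conj']
        ring
    rw [sum_congr rfl h3, ← Complex.ofReal_sum, Complex.norm_real] at h2
    exact (Real.le_norm_self _).trans h2
  · intro h
    by_cases hz : Z h = 0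
    · simp [hz]
    · rw [norm_div, Complex.norm_conj, Complex.norm_real, norm_norm, div_self (by simpa using hz)]

lemma bil (n N : ℕ) (hn : n ≤ N) (A B : Finset ℤ) (hA : A ⊆ Icc (1 : ℤ) n) (hB : B ⊆ Icc (1 : ℤ) n) (f g : ℕ → ℝ)
    (G V : ℝ) (hG : 0 < G) (hg : ∀ x ∈ Icc 1 N, |g x| ≤ G)
    (hV : ∀ (κ : ℤ → ℂ) (θ : ℤ → ℝ), (∀ h, ‖κ h‖ ≤ 1) →
      ‖∑ x ∈ Icc 1 N, (f x : ℂ) * FF N (fun y => (f y : ℂ)) κ θ x‖ ≤ V) :
    (∑ a ∈ A, ∑ b ∈ B, xt N f (a + b) * xt N g (a - b)) ^ 2 ≤ n * (V * N * G ^ 2) ∧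
    (∑ a ∈ A, ∑ b ∈ B, xt N g (a + b) * xt N f (a - b)) ^ 2 ≤ n * (V * N * G ^ 2) := by
  obtain ⟨M, hM, hMV⟩ := max_h N (4 * N + 1) (by omega) f V hV
  have hgg : ∀ (h t : ℤ), ‖((xt N g t * xt N g (t + h) : ℝ) : ℂ)‖ ≤ G ^ 2 := by
    intro h t
    rw [Complex.norm_real, Real.norm_eq_abs, abs_mul, sq]
    exact mul_le_mul (xt_abs N g G hG.le hg _) (xt_abs N g G hG.le hg _) (abs_nonneg _) hG.le
  have hind : ∀ (A : Finset ℤ) (h a : ℤ), ‖(if a ∈ A ∧ a + h ∈ A then 1 else 0 : ℂ)‖ ≤ 1 := by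
    intro A h a
    split_ifs <;> simp
  have hTF : ∀ (A : Finset ℤ) (h : ℤ), ‖TF N (fun a => if a ∈ A ∧ a + h ∈ A then 1 else 0)
      (fun x => ((xt N f x * xt N f (x + h) : ℝ) : ℂ)) (fun x => ((xt N g x * xt N g (x + h) : ℝ) : ℂ))‖ ≤ M h * N * G ^ 2 := by
    intro A h
    exact TF_le N (4 * N + 1) (by omega) _ _ _ (M h) (G ^ 2) (by positivity) (fun j hj => hM h j hj)
      (fun a _ => hind A h a) (fun t _ => hgg h t)
  have hsum : ∑ h ∈ Icc (-(N : ℤ)) N, M h * N * G ^ 2 ≤ V * N * G ^ 2 := by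
    rw [← sum_mul, ← sum_mul]
    gcongr
  constructor
  · refine (gow n N hn A B hA hB (xt N f) (xt N g) (xt_out N f) (xt_out N g)).trans ?_
    refine mul_le_mul_of_nonneg_left ?_ (Nat.cast_nonneg _)
    exact (sum_le_sum fun h _ => hTF A h).trans hsum
  · refine (gow n N hn A B hA hB (xt N g) (xt N f) (xt_out N g) (xt_out N f)).trans ?_
    refine mul_le_mul_of_nonneg_left ?_ (Nat.cast_nonneg _)
    refine (sum_le_sum fun h _ => ?_).trans hsum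
    rw [TF_symm]
    exact hTF A h

lemma lamz_zero (z : ℕ) (hz : 2 ≤ z) : lamz z 0 = 0 := by
  unfold lamz
  rw [if_neg]
  intro h
  exact h 2 (mem_pz.2 ⟨hz, Nat.prime_two⟩) (dvd_zero 2)

lemma lamz_le_inv (z n : ℕ) : lamz z n ≤ (Vz z)⁻¹ := by
  unfold lamz
  split_ifs
  · exact le_rfl
  · exact (inv_pos.2 (Vz_pos z)).le

/-- the pointwise decomposition -/
lemma point (n z : ℕ) (hz : 2 ≤ z) (a b : ℕ) (ha : a ∈ Icc 1 n) (hb : b ∈ Icc 1 n) :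
    KL a b - KZ z a b =
      xt (2 * n) (fun x => ArithmeticFunction.vonMangoldt x) ((a : ℤ) + b) * xt (2 * n) (fun x => ArithmeticFunction.vonMangoldt x - lamz z x) ((a : ℤ) - b) +
      xt (2 * n) (fun x => ArithmeticFunction.vonMangoldt x) ((b : ℤ) + a) * xt (2 * n) (fun x => ArithmeticFunction.vonMangoldt x - lamz z x) ((b : ℤ) - a) +
      (xt (2 * n) (fun x => ArithmeticFunction.vonMangoldt x - lamz z x) ((a : ℤ) + b) * xt (2 * n) (fun x => lamz z x) ((a : ℤ) - b) +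
      xt (2 * n) (fun x => ArithmeticFunction.vonMangoldt x - lamz z x) ((b : ℤ) + a) * xt (2 * n) (fun x => lamz z x) ((b : ℤ) - a)) := by
  rw [mem_Icc] at ha hb
  have h1 : ∀ f : ℕ → ℝ, xt (2 * n) f ((a : ℤ) + b) = f (a + b) := by
    intro f
    rw [← Nat.cast_add, xt_in _ _ _ (by omega) (by omega)]
  have h2 : ∀ f : ℕ → ℝ, xt (2 * n) f ((b : ℤ) + a) = f (a + b) := by
    intro f
    rw [← Nat.cast_add, xt_in _ _ _ (by omega) (by omega), add_comm]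
  rw [h1, h1, h2, h2]
  rcases lt_trichotomy a b with hab | hab | hab
  · have h3 : ∀ f : ℕ → ℝ, xt (2 * n) f ((a : ℤ) - b) = 0 := fun f => xt_out _ _ _ (by omega)
    have h4 : ∀ f : ℕ → ℝ, xt (2 * n) f ((b : ℤ) - a) = f (Nat.dist a b) := by
      intro f
      have e : ((b : ℤ) - a) = ((Nat.dist a b : ℕ) : ℤ) := by
        rw [Nat.dist_eq_sub_of_le hab.le]; omega
      rw [e, xt_in _ _ _ (by rw [Nat.dist_eq_sub_of_le hab.le]; omega) (by rw [Nat.dist_eq_sub_of_le hab.le]; omega)]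
    rw [h3, h3, h4, h4, KL, KZ]
    ring
  · subst hab
    have h3 : ∀ f : ℕ → ℝ, xt (2 * n) f ((a : ℤ) - a) = 0 := fun f => xt_out _ _ _ (by omega)
    rw [h3, h3, KL, KZ, Nat.dist_self, lamz_zero z hz]
    simp
  · have h3 : ∀ f : ℕ → ℝ, xt (2 * n) f ((b : ℤ) - a) = 0 := fun f => xt_out _ _ _ (by omega)
    have h4 : ∀ f : ℕ → ℝ, xt (2 * n) f ((a : ℤ) - b) = f (Nat.dist a b) := by
      intro f
      have e : ((a : ℤ) - b) = ((Nat.dist a b : ℕ) : ℤ) := by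
        rw [Nat.dist_eq_sub_of_le_right hab.le]; omega
      rw [e, xt_in _ _ _ (by rw [Nat.dist_eq_sub_of_le_right hab.le]; omega) (by rw [Nat.dist_eq_sub_of_le_right hab.le]; omega)]
    rw [h3, h3, h4, h4, KL, KZ]
    ring

theorem t_EST (hU3 : S_U3) : S_EST := by
  intro U
  obtain ⟨B, hB⟩ := hU3 (2 * U + 3)
  refine ⟨B + 1, fun K => ?_⟩
  obtain ⟨N₀, hN₀⟩ := hB K
  obtain ⟨N₁, hN₁⟩ := Vz_inv_small K
  have hlim : Filter.Tendsto (fun N : ℕ => Real.log (N : ℝ)) Filter.atTop Filter.atTop :=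
    Real.tendsto_log_atTop.comp (tendsto_natCast_atTop_atTop (R := ℝ))
  obtain ⟨N₂, hN₂⟩ := Filter.eventually_atTop.1 (hlim.eventually_ge_atTop ((2 : ℝ) ^ B + 128))
  refine ⟨max (max N₀ N₁) (max N₂ 1), fun n hn z hz1 hz2 A hA B' hB' => ?_⟩
  have hn0 : N₀ ≤ n := ((le_max_left _ _).trans (le_max_left _ _)).trans hn
  have hn1 : N₁ ≤ n := ((le_max_right _ _).trans (le_max_left _ _)).trans hn
  have hn2 : N₂ ≤ n := ((le_max_left _ _).trans (le_max_right _ _)).trans hn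
  have hn3 : 1 ≤ n := ((le_max_right _ _).trans (le_max_right _ _)).trans hn
  have hlog := hN₂ n hn2
  have hpos : (0 : ℝ) < (2 : ℝ) ^ B := by positivity
  set L := Real.log n with hL
  have hL128 : 128 ≤ L := by linarith
  have hnpos : (0 : ℝ) < n := by exact_mod_cast hn3
  set L2 := Real.log ((2 * n : ℕ) : ℝ) with hL2
  have hL2e : L2 = Real.log 2 + L := by
    rw [hL2]; push_cast
    rw [Real.log_mul (by norm_num) hnpos.ne']
  have hlog2 : 0 < Real.log 2 := Real.log_pos (by norm_num)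
  have hlog2' : Real.log 2 < 1 := by
    have := Real.log_two_lt_d9; linarith
  have hLL2 : L ≤ L2 := by linarith
  have hL2L : L2 ≤ 2 * L := by linarith
  have hL2pos : 0 < L2 := by linarith
  have hz1' : L2 ^ B ≤ z := by
    calc L2 ^ B ≤ (2 * L) ^ B := pow_le_pow_left₀ hL2pos.le hL2L B
      _ = 2 ^ B * L ^ B := by rw [mul_pow]
      _ ≤ L * L ^ B := by
        have : 0 ≤ L ^ B := by positivity
        nlinarith
      _ = L ^ (B + 1) := by ring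
      _ ≤ z := hz1
  have hz2' : (z : ℝ) ≤ L2 ^ K := hz2.trans (pow_le_pow_left₀ (by linarith) hLL2 K)
  have hzge : 2 ≤ z := by
    have h1 : (2 : ℝ) ≤ L ^ (B + 1) := by
      calc (2 : ℝ) ≤ L := by linarith
        _ = L ^ 1 := (pow_one L).symm
        _ ≤ L ^ (B + 1) := pow_le_pow_right₀ (by linarith) (by omega)
    exact_mod_cast h1.trans hz1
  have hu := hN₀ (2 * n) (by omega) z hz1' hz2'
  have hv := hN₁ (2 * n) (by omega) z (by omega) hz2'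
  rw [← hL2] at hv
  set V := ((2 * n : ℕ) : ℝ) ^ 2 / L2 ^ (2 * U + 3) with hV
  -- the four sums
  set A' : Finset ℤ := A.map Nat.castEmbedding with hA'
  set C' : Finset ℤ := B'.map Nat.castEmbedding with hC'
  have hA'' : A' ⊆ Icc (1 : ℤ) n := by
    intro x hx
    rw [hA', mem_map] at hx
    obtain ⟨a, ha, rfl⟩ := hx
    have := hA ha
    simp only [mem_Icc, Nat.castEmbedding_apply] at this ⊢
    omega
  have hC'' : C' ⊆ Icc (1 : ℤ) n := by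
    intro x hx
    rw [hC', mem_map] at hx
    obtain ⟨a, ha, rfl⟩ := hx
    have := hB' ha
    simp only [mem_Icc, Nat.castEmbedding_apply] at this ⊢
    omega
  have hgΛ : ∀ x ∈ Icc 1 (2 * n), |(fun x => ArithmeticFunction.vonMangoldt x : ℕ → ℝ) x| ≤ L2 := by
    intro x hx
    rw [mem_Icc] at hx
    simp only
    rw [abs_of_nonneg ArithmeticFunction.vonMangoldt_nonneg]
    refine ArithmeticFunction.vonMangoldt_le_log.trans ?_
    refine Real.log_le_log (by exact_mod_cast hx.1) ?_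
    exact_mod_cast hx.2
  have hgz : ∀ x ∈ Icc 1 (2 * n), |(fun x => lamz z x : ℕ → ℝ) x| ≤ L2 := by
    intro x hx
    simp only
    rw [abs_of_nonneg (lamz_nonneg z x)]
    exact (lamz_le_inv z x).trans hv
  have hVV : ∀ (κ : ℤ → ℂ) (θ : ℤ → ℝ), (∀ h, ‖κ h‖ ≤ 1) →
      ‖∑ x ∈ Icc 1 (2 * n), (((fun y => ArithmeticFunction.vonMangoldt y - lamz z y : ℕ → ℝ) x : ℝ) : ℂ) *
        FF (2 * n) (fun y => (((fun y => ArithmeticFunction.vonMangoldt y - lamz z y : ℕ → ℝ) y : ℝ) : ℂ)) κ θ x‖ ≤ V :=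
    fun κ θ hκ => hu κ θ hκ
  have b1 := (bil n (2 * n) (by omega) A' C' hA'' hC'' _ _ L2 V hL2pos hgΛ hVV).2
  have b2 := (bil n (2 * n) (by omega) C' A' hC'' hA'' _ _ L2 V hL2pos hgΛ hVV).2
  have b3 := (bil n (2 * n) (by omega) A' C' hA'' hC'' _ _ L2 V hL2pos hgz hVV).1
  have b4 := (bil n (2 * n) (by omega) C' A' hC'' hA'' _ _ L2 V hL2pos hgz hVV).1
  have hval : (n : ℝ) * (V * ((2 * n : ℕ) : ℝ) * L2 ^ 2) = 8 * n ^ 4 / L2 ^ (2 * U + 1) := by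
    rw [hV]
    push_cast
    field_simp
    ring
  rw [hval] at b1 b2 b3 b4
  have htot : ∑ a ∈ A, ∑ b ∈ B', (KL a b - KZ z a b) =
      (∑ a ∈ A', ∑ b ∈ C', xt (2 * n) (fun x => ArithmeticFunction.vonMangoldt x) (a + b) *
        xt (2 * n) (fun x => ArithmeticFunction.vonMangoldt x - lamz z x) (a - b)) +
      (∑ a ∈ C', ∑ b ∈ A', xt (2 * n) (fun x => ArithmeticFunction.vonMangoldt x) (a + b) *
        xt (2 * n) (fun x => ArithmeticFunction.vonMangoldt x - lamz z x) (a - b)) +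
      ((∑ a ∈ A', ∑ b ∈ C', xt (2 * n) (fun x => ArithmeticFunction.vonMangoldt x - lamz z x) (a + b) *
        xt (2 * n) (fun x => lamz z x) (a - b)) +
      (∑ a ∈ C', ∑ b ∈ A', xt (2 * n) (fun x => ArithmeticFunction.vonMangoldt x - lamz z x) (a + b) *
        xt (2 * n) (fun x => lamz z x) (a - b))) := by
    rw [sum_comm (s := C'), sum_comm (s := C')]
    rw [hA', hC']
    simp only [sum_map, Nat.castEmbedding_apply]
    rw [← sum_add_distrib, ← sum_add_distrib, ← sum_add_distrib]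
    refine sum_congr rfl fun a ha => ?_
    rw [← sum_add_distrib, ← sum_add_distrib, ← sum_add_distrib]
    refine sum_congr rfl fun b hb => ?_
    exact point n z hzge a b (hA ha) (hB' hb)
  rw [htot]
  set w1 := ∑ a ∈ A', ∑ b ∈ C', xt (2 * n) (fun x => ArithmeticFunction.vonMangoldt x) (a + b) *
        xt (2 * n) (fun x => ArithmeticFunction.vonMangoldt x - lamz z x) (a - b) with hw1
  set w2 := ∑ a ∈ C', ∑ b ∈ A', xt (2 * n) (fun x => ArithmeticFunction.vonMangoldt x) (a + b) *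
        xt (2 * n) (fun x => ArithmeticFunction.vonMangoldt x - lamz z x) (a - b) with hw2
  set w3 := ∑ a ∈ A', ∑ b ∈ C', xt (2 * n) (fun x => ArithmeticFunction.vonMangoldt x - lamz z x) (a + b) *
        xt (2 * n) (fun x => lamz z x) (a - b) with hw3
  set w4 := ∑ a ∈ C', ∑ b ∈ A', xt (2 * n) (fun x => ArithmeticFunction.vonMangoldt x - lamz z x) (a + b) *
        xt (2 * n) (fun x => lamz z x) (a - b) with hw4
  have hsq : (w1 + w2 + (w3 + w4)) ^ 2 ≤ 128 * n ^ 4 / L2 ^ (2 * U + 1) := by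
    have e1 : (w1 + w2 + (w3 + w4)) ^ 2 ≤ 4 * (w1 ^ 2 + w2 ^ 2 + w3 ^ 2 + w4 ^ 2) := by
      nlinarith [sq_nonneg (w1 - w2), sq_nonneg (w1 - w3), sq_nonneg (w1 - w4), sq_nonneg (w2 - w3), sq_nonneg (w2 - w4), sq_nonneg (w3 - w4)]
    have e2 : 128 * (n : ℝ) ^ 4 / L2 ^ (2 * U + 1) = 4 * (8 * n ^ 4 / L2 ^ (2 * U + 1) + 8 * n ^ 4 / L2 ^ (2 * U + 1) +
        8 * n ^ 4 / L2 ^ (2 * U + 1) + 8 * n ^ 4 / L2 ^ (2 * U + 1)) := by ring
    rw [e2]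
    refine e1.trans ?_
    linarith
  have hfin : 128 * (n : ℝ) ^ 4 / L2 ^ (2 * U + 1) ≤ (n ^ 2 / L ^ U) ^ 2 := by
    have e1 : ((n : ℝ) ^ 2 / L ^ U) ^ 2 = n ^ 4 / L ^ (2 * U) := by
      rw [div_pow, ← pow_mul, ← pow_mul]
      congr 2 <;> ring
    rw [e1, div_le_div_iff₀ (by positivity) (by positivity)]
    have e2 : L ^ (2 * U) ≤ L2 ^ (2 * U) := pow_le_pow_left₀ (by linarith) hLL2 _
    have e3 : 128 * L ^ (2 * U) ≤ L2 ^ (2 * U + 1) := by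
      rw [pow_succ, mul_comm]
      exact mul_le_mul e2 (by linarith) (by norm_num) (by positivity)
    calc 128 * (n : ℝ) ^ 4 * L ^ (2 * U) = n ^ 4 * (128 * L ^ (2 * U)) := by ring
      _ ≤ n ^ 4 * L2 ^ (2 * U + 1) := by
        gcongr
  exact abs_le_of_sq_le_sq (hsq.trans hfin) (by positivity)

end Pool.Agent.E8helper81.GB
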